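import Mathlib

set_option autoImplicit false

namespace Pool.Agent.H.MP_16f3b0_al

def R : Type := ZMod 2 × ZMod 2 × ZMod 2

instance : AddCommGroup R := inferInstanceAs (AddCommGroup (ZMod 2 × ZMod 2 × ZMod 2))
instance : Fintype R := inferInstanceAs (Fintype (ZMod 2 × ZMod 2 × ZMod 2))
instance : DecidableEq R := inferInstanceAs (DecidableEq (ZMod 2 × ZMod 2 × ZMod 2))
instance : Mul R := ⟨fun a b => (a.1 * b.1 + a.2.1 * b.2.2 + a.2.2 * b.2.1, a.2.2 * b.2.2, a.2.2 * b.1)⟩

instance : NonUnitalNonAssocRing R where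
  left_distrib := by decide
  right_distrib := by decide
  zero_mul := by decide
  mul_zero := by decide

def mk (a b c : ZMod 2) : R := (a, b, c)

end Pool.Agent.H.MP_16f3b0_al
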